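import Pool.Agent.Y315.OP.All

/-!
# Optimal potentials for Schroedinger eigenvalues: bounded set of finiteness and structure
-/

set_option autoImplicit false

open MeasureTheory
open scoped ENNReal
open Pool.Agent.Y315.OP

namespace Pool.Agent.Results.MP_5ab436_an.OptimalPotentials

/-- admissible potentials: Lebesgue measurable with `∫ V ^ (-p) ≤ 1` -/
def Admissible {d : ℕ} (p : ℝ) (V : E d → ℝ≥0∞) : Prop :=
  AEMeasurable V volume ∧ ∫⁻ x, (V x) ^ (-p) ≤ 1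

/-- minimizers of the `k`-th eigenvalue -/
def Minimizer {d : ℕ} (p : ℝ) (k : ℕ) (V : E d → ℝ≥0∞) : Prop :=
  Admissible p V ∧ ∀ W : E d → ℝ≥0∞, Admissible p W → lam k V ≤ lam k W

/-- local minimizers: only the potentials `W` with `(1 - ε) V ≤ W ≤ (1 + ε) V` are compared -/
def LocalMinimizer {d : ℕ} (p : ℝ) (k : ℕ) (ε : ℝ) (V : E d → ℝ≥0∞) : Prop :=
  Admissible p V ∧ ∀ W : E d → ℝ≥0∞, Admissible p W →
    (∀ᵐ x : E d, ENNReal.ofReal (1 - ε) * V x ≤ W x ∧ W x ≤ ENNReal.ofReal (1 + ε) * V x) →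
    lam k V ≤ lam k W

/-- every minimizer has a bounded set of finiteness; and the structure of all local minimizers -/
theorem result (d : ℕ) (p : ℝ) (k : ℕ) (hd : 1 ≤ d) (hp : 0 < p) (hk : 1 ≤ k) :
    (∀ V : E d → ℝ≥0∞, Minimizer p k V →
      lam k V < ⊤ ∧ ∃ R : ℝ, ∀ᵐ x : E d, V x < ⊤ → ‖x‖ ≤ R) ∧
    (∀ (ε : ℝ) (V : E d → ℝ≥0∞), 0 < ε → LocalMinimizer p k ε V → lam k V < ⊤ →
      (∃ R : ℝ, ∀ᵐ x : E d, V x < ⊤ → ‖x‖ ≤ R) ∧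
      (∃ δ : ℝ, 0 < δ ∧ ∀ᵐ x : E d, ENNReal.ofReal δ ≤ V x) ∧
      ∃ (κ : ℝ) (w : Fin k → E d → ℝ) (G : Fin k → E d → E d), 0 < κ ∧
        (∀ l, InH V (w l) (G l)) ∧ (∀ l, Eig V (lam k V).toReal (w l) (G l)) ∧
        ∀ᵐ x : E d, V x =
          (ENNReal.ofReal κ / ENNReal.ofReal (∑ l, w l x ^ 2)) ^ (1 / (p + 1))) := by
  have h2 : ∀ (ε : ℝ) (V : E d → ℝ≥0∞), 0 < ε → LocalMinimizer p k ε V → lam k V < ⊤ →
      (∃ R : ℝ, ∀ᵐ x : E d, V x < ⊤ → ‖x‖ ≤ R) ∧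
      (∃ δ : ℝ, 0 < δ ∧ ∀ᵐ x : E d, ENNReal.ofReal δ ≤ V x) ∧
      ∃ (κ : ℝ) (w : Fin k → E d → ℝ) (G : Fin k → E d → E d), 0 < κ ∧
        (∀ l, InH V (w l) (G l)) ∧ (∀ l, Eig V (lam k V).toReal (w l) (G l)) ∧
        ∀ᵐ x : E d, V x =
          (ENNReal.ofReal κ / ENNReal.ofReal (∑ l, w l x ^ 2)) ^ (1 / (p + 1)) :=
    fun ε V hε hV hlt => structure_ae d p k hd hp hk ε hε V hV.1.1 hV.1.2
      (fun W h1 h2 h3 => hV.2 W ⟨h1, h2⟩ h3) hlt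
  refine ⟨fun V hV => ?_, h2⟩
  obtain ⟨W, hWm, hW1, hWf⟩ := h_fin d p k hd hp
  have hlt : lam k V < ⊤ := (hV.2 W ⟨hWm.aemeasurable, hW1⟩).trans_lt hWf
  exact ⟨hlt, (h2 1 V one_pos ⟨hV.1, fun W h1 _ => hV.2 W h1⟩ hlt).1⟩

end Pool.Agent.Results.MP_5ab436_an.OptimalPotentials
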